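import Mathlib
import Pool.Prelude.Def_F_d420a142
import Pool.Agent.Work.MP_992d6e_an.SM.FinA

/-!
The number of well-conditioned equilibria of point charges.
-/

set_option autoImplicit false

namespace Pool.Agent.Results.MP_992d6e_an.ConditionNumber

open N62f3cee0

/-- The equilibria `x` of condition number at most `K`:
`(∑ |q_l| / |x - a_l|^2) |v| ≤ K |x - a_j| |D²V(x) v|` for all `v` and all charges `a_j`. -/
def wellConditioned {n : ℕ} (q : Fin n → ℝ) (a : Fin n → EuclideanSpace ℝ (Fin 3)) (K : ℝ) :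
    Set (EuclideanSpace ℝ (Fin 3)) :=
  {x ∈ equilibria q a | ∀ j v, (∑ l, |q l| / dist x (a l) ^ 2) * ‖v‖ ≤
    K * dist x (a j) * ‖fderiv ℝ (fderiv ℝ (potential q a)) x v‖}

/-- Every configuration of `n` charges has at most `C n (log K)^4` equilibria of condition
number at most `K`. -/
theorem result : ∃ C : ℝ, 0 < C ∧ ∀ (n : ℕ) (q : Fin n → ℝ)
    (a : Fin n → EuclideanSpace ℝ (Fin 3)) (K : ℝ), 1 ≤ n → (∀ l, q l ≠ 0) → 2 ≤ K →
    (wellConditioned q a K).Finite ∧
    ((wellConditioned q a K).ncard : ℝ) ≤ C * n * Real.log K ^ 4 :=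
  SM992.cond_count'

end Pool.Agent.Results.MP_992d6e_an.ConditionNumber
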